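import Mathlib

set_option autoImplicit false

/-!
# Rotationally symmetric metrics on closed 3-manifolds

`f` is the profile of the metric `dr ^ 2 + f (r) ^ 2 g_{S^2}`.
-/

namespace Pool.Agent.R259.RS

open Set Filter Topology MeasureTheory

/-- The sectional curvature of the planes containing `∂_r`. -/
noncomputable def Kr (f : ℝ → ℝ) (r : ℝ) : ℝ := -deriv (deriv f) r / f r

/-- The sectional curvature of the planes tangent to the spheres `r = const`. -/
noncomputable def Kt (f : ℝ → ℝ) (r : ℝ) : ℝ := (1 - deriv f r ^ 2) / f r ^ 2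

/-- The Ricci curvature in the direction `∂_r`. -/
noncomputable def ricR (f : ℝ → ℝ) (r : ℝ) : ℝ := 2 * Kr f r

/-- The Ricci curvature in the two directions orthogonal to `∂_r`. -/
noncomputable def ricT (f : ℝ → ℝ) (r : ℝ) : ℝ := Kr f r + Kt f r

/-- The scalar curvature. -/
noncomputable def scal (f : ℝ → ℝ) (r : ℝ) : ℝ := ricR f r + ricT f r + ricT f r

/-- The radial eigenvalue of the Schouten tensor `Ric - (R / 4) g`. -/
noncomputable def lamR (f : ℝ → ℝ) (r : ℝ) : ℝ := ricR f r - scal f r / 4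

/-- The double tangential eigenvalue of the Schouten tensor. -/
noncomputable def lamT (f : ℝ → ℝ) (r : ℝ) : ℝ := ricT f r - scal f r / 4

/-- The first elementary symmetric function of the eigenvalues `lamR`, `lamT`, `lamT`. -/
noncomputable def sigma1 (f : ℝ → ℝ) (r : ℝ) : ℝ := lamR f r + lamT f r + lamT f r

/-- The second elementary symmetric function of the eigenvalues `lamR`, `lamT`, `lamT`. -/
noncomputable def sigma2 (f : ℝ → ℝ) (r : ℝ) : ℝ :=
  lamR f r * lamT f r + lamR f r * lamT f r + lamT f r * lamT f r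

/-- The integral of `φ (r)` over the part `0 < r < L` of the manifold, with volume element
`4 π f (r) ^ 2 dr`. -/
noncomputable def total (φ f : ℝ → ℝ) (L : ℝ) : ℝ :=
  ∫ r in (0 : ℝ)..L, φ r * (4 * Real.pi * f r ^ 2)

/-- `x1 = sigma1 * f ^ 2` -/
noncomputable def x1 (f : ℝ → ℝ) (r : ℝ) : ℝ :=
  -(f r * deriv (deriv f) r) + (1 - deriv f r ^ 2) / 2

/-- `y1 = sigma2 * f ^ 2` -/
noncomputable def y1 (f : ℝ → ℝ) (r : ℝ) : ℝ :=
  -(deriv (deriv f) r * (1 - deriv f r ^ 2) / f r) - (1 - deriv f r ^ 2) ^ 2 / (4 * f r ^ 2)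

lemma sigma1_mul {f : ℝ → ℝ} {r : ℝ} (h : f r ≠ 0) : sigma1 f r * f r ^ 2 = x1 f r := by
  unfold sigma1 lamR lamT scal ricR ricT Kr Kt x1
  field_simp
  ring

lemma sigma2_mul {f : ℝ → ℝ} {r : ℝ} (h : f r ≠ 0) : sigma2 f r * f r ^ 2 = y1 f r := by
  unfold sigma2 lamR lamT scal ricR ricT Kr Kt y1
  field_simp
  ring

lemma scal_mul {f : ℝ → ℝ} {r : ℝ} (h : f r ≠ 0) : scal f r * f r ^ 2 = 4 * x1 f r := by
  unfold scal ricR ricT Kr Kt x1
  field_simp
  ring

lemma sigma1_eq (f : ℝ → ℝ) (r : ℝ) : sigma1 f r = scal f r / 4 := by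
  unfold sigma1 lamR lamT scal
  ring

lemma x1_pos {f : ℝ → ℝ} {r : ℝ} (h : 0 < f r) (hs : 0 < scal f r) : 0 < x1 f r := by
  have h1 := scal_mul h.ne'
  have h2 : 0 < scal f r * f r ^ 2 := by positivity
  linarith

/-- The derivatives of a `C ^ 2` function. -/
lemma hd1 {f : ℝ → ℝ} (hf : ContDiff ℝ 2 f) (r : ℝ) : HasDerivAt f (deriv f r) r :=
  ((hf.differentiable (by norm_num)) r).hasDerivAt

lemma cd1 {f : ℝ → ℝ} (hf : ContDiff ℝ 2 f) : ContDiff ℝ 1 (deriv f) := by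
  have h : ContDiff ℝ (1 + 1) f := by
    norm_num
    exact hf
  exact ((contDiff_succ_iff_deriv).1 h).2.2

lemma hd2 {f : ℝ → ℝ} (hf : ContDiff ℝ 2 f) (r : ℝ) :
    HasDerivAt (deriv f) (deriv (deriv f) r) r :=
  (((cd1 hf).differentiable (by norm_num)) r).hasDerivAt

lemma c0 {f : ℝ → ℝ} (hf : ContDiff ℝ 2 f) : Continuous f := hf.continuous

lemma c1 {f : ℝ → ℝ} (hf : ContDiff ℝ 2 f) : Continuous (deriv f) := (cd1 hf).continuous

lemma c2 {f : ℝ → ℝ} (hf : ContDiff ℝ 2 f) : Continuous (deriv (deriv f)) :=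
  (cd1 hf).continuous_deriv (by norm_num)

lemma x1_cont {f : ℝ → ℝ} (hf : ContDiff ℝ 2 f) : Continuous (x1 f) := by
  unfold x1
  have h0 := c0 hf
  have h1 := c1 hf
  have h2 := c2 hf
  fun_prop

/-- The mass function argument: `f' ≤ 1`. -/
lemma deriv_le_one {f : ℝ → ℝ} (hf : ContDiff ℝ 2 f) {r₀ r₁ : ℝ} (h01 : r₀ ≤ r₁)
    (h0 : deriv f r₀ ≤ 1) (hpos : ∀ r ∈ Ioc r₀ r₁, 0 < f r)
    (hx : ∀ r ∈ Ioo r₀ r₁, 0 < x1 f r) : deriv f r₁ ≤ 1 := by
  by_contra hcon
  push Not at hcon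
  have hc1 := c1 hf
  -- the last point where `f' ≤ 1`
  obtain ⟨S, hS⟩ : ∃ S : Set ℝ, S = {r | r ∈ Icc r₀ r₁ ∧ deriv f r ≤ 1} := ⟨_, rfl⟩
  have hScl : IsClosed S := by
    rw [hS]
    exact isClosed_Icc.inter (isClosed_le hc1 continuous_const)
  have hSne : S.Nonempty := ⟨r₀, by rw [hS]; exact ⟨⟨le_rfl, h01⟩, h0⟩⟩
  have hSbd : BddAbove S := ⟨r₁, fun r hr => by rw [hS] at hr; exact hr.1.2⟩
  have hs := hScl.csSup_mem hSne hSbd
  set s := sSup S with hsdef
  have hs' := hs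
  rw [hS] at hs'
  obtain ⟨⟨hs1, hs2⟩, hs3⟩ := hs'
  have hslt : s < r₁ := by
    rcases hs2.lt_or_eq with h | h
    · exact h
    · rw [h] at hs3
      linarith
  have hgt : ∀ r ∈ Ioc s r₁, 1 < deriv f r := by
    intro r hr
    by_contra h
    push Not at h
    have : r ∈ S := by rw [hS]; exact ⟨⟨hs1.trans hr.1.le, hr.2⟩, h⟩
    have := le_csSup hSbd this
    linarith [hr.1]
  have hseq : deriv f s = 1 := by
    refine le_antisymm hs3 ?_
    have h1 : Tendsto (deriv f) (𝓝[>] s) (𝓝 (deriv f s)) := (hc1.tendsto s).mono_left nhdsWithin_le_nhds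
    refine ge_of_tendsto h1 ?_
    filter_upwards [Ioc_mem_nhdsGT hslt] with r hr
    exact (hgt r hr).le
  -- the mass is increasing
  have hmono : MonotoneOn (fun r => f r * (1 - deriv f r ^ 2)) (Icc s r₁) := by
    refine monotoneOn_of_deriv_nonneg (convex_Icc _ _) ?_ ?_ ?_
    · have h0 := c0 hf
      exact Continuous.continuousOn (by fun_prop)
    · intro r _
      have e1 := hd1 hf r
      have e2 := hd2 hf r
      exact ((e1.mul ((e2.pow 2).const_sub 1)).differentiableAt).differentiableWithinAt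
    · intro r hr
      rw [interior_Icc] at hr
      have e1 := hd1 hf r
      have e2 := hd2 hf r
      have e3 := (e1.mul ((e2.pow 2).const_sub 1)).deriv
      have e4 : deriv (fun r => f r * (1 - deriv f r ^ 2)) r =
          deriv f r * (1 - deriv f r ^ 2) +
            f r * (-(((2 : ℕ) : ℝ) * deriv f r ^ (2 - 1) * deriv (deriv f) r)) := e3
      rw [e4]
      have e5 : deriv f r * (1 - deriv f r ^ 2) +
            f r * (-(((2 : ℕ) : ℝ) * deriv f r ^ (2 - 1) * deriv (deriv f) r)) =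
          2 * deriv f r * x1 f r := by
        unfold x1
        push_cast
        ring
      rw [e5]
      have h1 := hgt r ⟨hr.1, hr.2.le⟩
      have h2 := hx r ⟨hs1.trans_lt hr.1, hr.2⟩
      nlinarith
  have h1 := hmono ⟨le_rfl, hslt.le⟩ ⟨hslt.le, le_rfl⟩ hslt.le
  simp only [hseq] at h1
  have h2 : 0 < f r₁ := hpos r₁ ⟨hs1.trans_lt hslt, le_rfl⟩
  have h3 : 1 < deriv f r₁ ^ 2 := by nlinarith
  have h4 : f r₁ * (1 - deriv f r₁ ^ 2) < 0 := mul_neg_of_pos_of_neg h2 (by linarith)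
  linarith

/-- reflection -/
lemma deriv_refl {f : ℝ → ℝ} (hf : ContDiff ℝ 2 f) (L r : ℝ) :
    deriv (fun r => f (L - r)) r = -deriv f (L - r) := by
  have h := ((hd1 hf (L - r)).comp r ((hasDerivAt_id r).const_sub L)).deriv
  have h2 : deriv (fun r => f (L - r)) r = deriv f (L - r) * -1 := h
  rw [h2]; ring

lemma deriv2_refl {f : ℝ → ℝ} (hf : ContDiff ℝ 2 f) (L r : ℝ) :
    deriv (deriv (fun r => f (L - r))) r = deriv (deriv f) (L - r) := by
  have h0 : deriv (fun r => f (L - r)) = fun r => -deriv f (L - r) := by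
    funext r
    exact deriv_refl hf L r
  rw [h0]
  have h := (((hd2 hf (L - r)).comp r ((hasDerivAt_id r).const_sub L)).neg).deriv
  have h2 : deriv (fun r => -deriv f (L - r)) r = -(deriv (deriv f) (L - r) * -1) := h
  rw [h2]; ring

lemma cd_refl {f : ℝ → ℝ} (hf : ContDiff ℝ 2 f) (L : ℝ) : ContDiff ℝ 2 (fun r => f (L - r)) :=
  hf.comp (contDiff_const.sub contDiff_id)

lemma x1_refl {f : ℝ → ℝ} (hf : ContDiff ℝ 2 f) (L r : ℝ) :
    x1 (fun r => f (L - r)) r = x1 f (L - r) := by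
  unfold x1
  rw [deriv2_refl hf, deriv_refl hf]
  ring

lemma y1_refl {f : ℝ → ℝ} (hf : ContDiff ℝ 2 f) (L r : ℝ) :
    y1 (fun r => f (L - r)) r = y1 f (L - r) := by
  unfold y1
  rw [deriv2_refl hf, deriv_refl hf]
  ring

lemma neg_one_le_deriv {f : ℝ → ℝ} (hf : ContDiff ℝ 2 f) {r₀ r₁ : ℝ} (h01 : r₀ ≤ r₁)
    (h1 : -1 ≤ deriv f r₁) (hpos : ∀ r ∈ Ico r₀ r₁, 0 < f r)
    (hx : ∀ r ∈ Ioo r₀ r₁, 0 < x1 f r) : -1 ≤ deriv f r₀ := by
  have h := deriv_le_one (cd_refl hf 0) (r₀ := -r₁) (r₁ := -r₀) (by linarith)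
    (by rw [deriv_refl hf]; simp only [zero_sub, neg_neg]; linarith)
    (fun r hr => hpos (0 - r) ⟨by linarith [hr.2], by linarith [hr.1]⟩)
    (fun r hr => by rw [x1_refl hf]; exact hx (0 - r) ⟨by linarith [hr.2], by linarith [hr.1]⟩)
  rw [deriv_refl hf] at h
  simp only [zero_sub, neg_neg] at h
  linarith

end Pool.Agent.R259.RS
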