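import Mathlib
import Pool.Agent.R259.RS.Base

set_option autoImplicit false

/-!
# The calibration argument
-/

namespace Pool.Agent.R259.RS

open Set Filter Topology MeasureTheory

/-- The calibrating function along the profile. -/
noncomputable def Phi (ψ f : ℝ → ℝ) (e r : ℝ) : ℝ :=
  ψ (f r) - (3 * deriv f r - deriv f r ^ 3) / (3 * f r) - e * (f r * deriv f r)

/-- its derivative -/
noncomputable def dPhi (ψ' f : ℝ → ℝ) (e r : ℝ) : ℝ :=
  ψ' (f r) * deriv f r - (1 - deriv f r ^ 2) * deriv (deriv f) r / f r +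
    (3 * deriv f r ^ 2 - deriv f r ^ 4) / (3 * f r ^ 2) -
    e * (deriv f r ^ 2 + f r * deriv (deriv f) r)

lemma hasDeriv_Phi {ψ ψ' f : ℝ → ℝ} (hf : ContDiff ℝ 2 f) {e r : ℝ} (h0 : 0 < f r)
    (hψ : HasDerivAt ψ (ψ' (f r)) (f r)) :
    HasDerivAt (Phi ψ f e) (dPhi ψ' f e r) r := by
  have e1 := hd1 hf r
  have e2 := hd2 hf r
  have h1 := hψ.comp r e1
  have h2 := ((e2.const_mul 3).sub (e2.pow 3)).div (e1.const_mul 3) (by positivity)
  have h3 := (e1.mul e2).const_mul e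
  have h4 := (h1.sub h2).sub h3
  refine HasDerivAt.congr_deriv (f := Phi ψ f e) h4 ?_
  unfold dPhi
  simp only [Pi.mul_apply, Pi.pow_apply, Pi.sub_apply]
  push_cast
  field_simp
  ring

/-- The behaviour at the pole. -/
lemma tendsto_Phi {ψ f : ℝ → ℝ} (hf : ContDiff ℝ 2 f) (e : ℝ) (h0 : f 0 = 0)
    (h1 : deriv f 0 = 1)
    (hlim : Tendsto (fun s => ψ s - 2 / (3 * s)) (𝓝[>] 0) (𝓝 0)) :
    Tendsto (Phi ψ f e) (𝓝[>] 0) (𝓝 0) := by
  have hc0 := c0 hf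
  have hc1 := c1 hf
  -- slopes
  have s1 : Tendsto (fun r => f r / r) (𝓝[>] 0) (𝓝 1) := by
    have h := (hasDerivAt_iff_tendsto_slope.1 (hd1 hf 0))
    rw [h1] at h
    have h' := h.mono_left (nhdsWithin_mono (0 : ℝ) (s := Ioi 0) (t := {0}ᶜ)
      (fun x hx => ne_of_gt hx))
    refine h'.congr' ?_
    filter_upwards with r
    rw [slope_def_field, h0]
    simp
  have s2 : Tendsto (fun r => (1 - deriv f r) / r) (𝓝[>] 0) (𝓝 (-deriv (deriv f) 0)) := by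
    have h := (hasDerivAt_iff_tendsto_slope.1 (hd2 hf 0))
    have h' := (h.mono_left (nhdsWithin_mono (0 : ℝ) (s := Ioi 0) (t := {0}ᶜ)
      (fun x hx => ne_of_gt hx))).neg
    refine h'.congr' ?_
    filter_upwards with r
    rw [slope_def_field, h1]
    simp only [sub_zero]
    ring
  have hid : Tendsto (fun r : ℝ => r) (𝓝[>] 0) (𝓝 0) := tendsto_id.mono_left nhdsWithin_le_nhds
  have t0 : Tendsto f (𝓝[>] 0) (𝓝 0) := by
    have := (hc0.tendsto 0).mono_left (nhdsWithin_le_nhds (s := Ioi (0 : ℝ)))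
    rwa [h0] at this
  have t1 : Tendsto (deriv f) (𝓝[>] 0) (𝓝 1) := by
    have := (hc1.tendsto 0).mono_left (nhdsWithin_le_nhds (s := Ioi (0 : ℝ)))
    rwa [h1] at this
  have hfpos : ∀ᶠ r in 𝓝[>] (0 : ℝ), 0 < f r := by
    have := s1.eventually (lt_mem_nhds (show (0 : ℝ) < 1 by norm_num))
    filter_upwards [this, self_mem_nhdsWithin] with r hr hr0
    have hr0' : (0 : ℝ) < r := hr0
    have h := mul_pos hr hr0'
    rwa [div_mul_cancel₀ _ hr0'.ne'] at h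
  have t0' : Tendsto f (𝓝[>] 0) (𝓝[>] 0) :=
    tendsto_nhdsWithin_iff.2 ⟨t0, hfpos⟩
  have A := hlim.comp t0'
  have B : Tendsto (fun r => r * ((1 - deriv f r) / r) ^ 2 / (f r / r) * (2 + deriv f r) / 3)
      (𝓝[>] 0) (𝓝 (0 * (-deriv (deriv f) 0) ^ 2 / 1 * (2 + 1) / 3)) :=
    ((((hid.mul (s2.pow 2)).div s1 one_ne_zero).mul (t1.const_add 2)).div_const 3)
  have C : Tendsto (fun r => e * (f r * deriv f r)) (𝓝[>] 0) (𝓝 (e * (0 * 1))) :=
    (t0.mul t1).const_mul e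
  have D := (A.add B).sub C
  have e0 : (0 : ℝ) + 0 * (-deriv (deriv f) 0) ^ 2 / 1 * (2 + 1) / 3 - e * (0 * 1) = 0 := by ring
  rw [e0] at D
  refine D.congr' ?_
  filter_upwards [hfpos, self_mem_nhdsWithin] with r hr hr0
  have hr0' : (0 : ℝ) < r := hr0
  have hr1 := hr.ne'
  have hr2 := hr0'.ne'
  unfold Phi
  simp only [Function.comp_apply]
  field_simp
  ring

/-- **The calibration argument** on one side of the maximum. -/
theorem half {ψ ψ' f D : ℝ → ℝ} {e c b : ℝ} (hf : ContDiff ℝ 2 f) (hc : 0 < c)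
    (h0 : f 0 = 0) (h1 : deriv f 0 = 1) (hpos : ∀ r ∈ Ioc 0 c, 0 < f r)
    (hb : ∀ r ∈ Ioc 0 c, f r < b) (hcrit : deriv f c = 0)
    (hψ : ∀ s ∈ Ioo 0 b, HasDerivAt ψ (ψ' s) s) (hψ0 : ψ 0 = 0)
    (hlim : Tendsto (fun s => ψ s - 2 / (3 * s)) (𝓝[>] 0) (𝓝 0))
    (hD : IntervalIntegrable D volume 0 c)
    (hle : ∀ r ∈ Ioo 0 c, D r ≤ dPhi ψ' f e r) :
    ∫ r in (0 : ℝ)..c, D r ≤ ψ (f c) := by
  have hP0 : Phi ψ f e 0 = 0 := by
    unfold Phi
    rw [h0, hψ0]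
    simp
  have hPc : Phi ψ f e c = ψ (f c) := by
    unfold Phi
    rw [hcrit]
    simp
  have hcont : ContinuousOn (Phi ψ f e) (Icc 0 c) := by
    intro r hr
    rcases hr.1.lt_or_eq with h | h
    · exact (hasDeriv_Phi hf (hpos r ⟨h, hr.2⟩)
        (hψ _ ⟨hpos r ⟨h, hr.2⟩, hb r ⟨h, hr.2⟩⟩)).continuousAt.continuousWithinAt
    · rw [← h]
      have h2 : ContinuousWithinAt (Phi ψ f e) (Ioi 0) 0 := by
        unfold ContinuousWithinAt
        rw [hP0]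
        exact tendsto_Phi hf e h0 h1 hlim
      have h3 : ContinuousWithinAt (Phi ψ f e) (Ici 0) 0 := by
        rw [← continuousWithinAt_Ioi_iff_Ici]
        exact h2
      exact h3.mono Icc_subset_Ici_self
  have h := intervalIntegral.integral_le_sub_of_hasDeriv_right_of_le hc.le hcont
    (g' := dPhi ψ' f e) (φ := D) (fun r hr => (hasDeriv_Phi hf (hpos r ⟨hr.1, hr.2.le⟩)
      (hψ _ ⟨hpos r ⟨hr.1, hr.2.le⟩, hb r ⟨hr.1, hr.2.le⟩⟩)).hasDerivWithinAt)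
    ((intervalIntegrable_iff_integrableOn_Icc_of_le hc.le).1 hD) hle
  rw [hP0, hPc, sub_zero] at h
  exact h

end Pool.Agent.R259.RS
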