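import Mathlib
import Pool.Agent.R259.RS.Half

set_option autoImplicit false

/-!
# The calibrating functions
-/

namespace Pool.Agent.R259.RS

open Set Filter Topology MeasureTheory

/-- `cos` of the angle -/
noncomputable def cc (b s : ℝ) : ℝ := Real.sqrt (1 - (s / b) ^ 2)

/-- The family of calibrating functions. -/
noncomputable def psi (p q b s : ℝ) : ℝ :=
  1 / (4 * b) * (p * Real.arcsin (s / b) - q * (s / b * cc b s)) +
    (2 + (s / b) ^ 2) * cc b s / (3 * s)

variable {b s : ℝ}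

lemma cc_pos (h0 : 0 < s) (h1 : s < b) : 0 < cc b s := by
  have hb : 0 < b := h0.trans h1
  have hx0 : 0 < s / b := by positivity
  have hx1 : s / b < 1 := by rw [div_lt_one hb]; exact h1
  unfold cc
  exact Real.sqrt_pos.2 (by nlinarith)

lemma cc_sq (h0 : 0 ≤ s) (h1 : s ≤ b) (hb : 0 < b) : cc b s ^ 2 = 1 - (s / b) ^ 2 := by
  have hx0 : 0 ≤ s / b := by positivity
  have hx1 : s / b ≤ 1 := by rw [div_le_one hb]; exact h1
  unfold cc
  exact Real.sq_sqrt (by nlinarith)

lemma cc_le_one (b s : ℝ) : cc b s ≤ 1 := by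
  unfold cc
  calc Real.sqrt (1 - (s / b) ^ 2) ≤ Real.sqrt 1 :=
        Real.sqrt_le_sqrt (by nlinarith [sq_nonneg (s / b)])
    _ = 1 := Real.sqrt_one

lemma cc_nonneg (b s : ℝ) : 0 ≤ cc b s := Real.sqrt_nonneg _

lemma hd_cc (h0 : 0 < s) (h1 : s < b) : HasDerivAt (cc b) (-(s / b) / (b * cc b s)) s := by
  have hb : 0 < b := h0.trans h1
  have hc := cc_pos h0 h1
  have e0 : HasDerivAt (fun s : ℝ => s / b) (1 / b) s := (hasDerivAt_id s).div_const b
  have e1 := (e0.pow 2).const_sub 1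
  have hne : 1 - (s / b) ^ 2 ≠ 0 := by
    rw [← cc_sq h0.le h1.le hb]
    positivity
  have e2 := e1.sqrt hne
  refine HasDerivAt.congr_deriv (f := cc b) e2 ?_
  have : Real.sqrt ((1 : ℝ) - ((fun s : ℝ => s / b) ^ 2) s) = cc b s := rfl
  rw [show Real.sqrt (1 - ((fun s : ℝ => s / b) ^ 2) s) = cc b s from rfl]
  push_cast
  field_simp

lemma hd_arcsin (h0 : 0 < s) (h1 : s < b) :
    HasDerivAt (fun s => Real.arcsin (s / b)) (1 / (b * cc b s)) s := by
  have hb : 0 < b := h0.trans h1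
  have hc := cc_pos h0 h1
  have hx0 : 0 < s / b := by positivity
  have hx1 : s / b < 1 := by rw [div_lt_one hb]; exact h1
  have e0 : HasDerivAt (fun s : ℝ => s / b) (1 / b) s := (hasDerivAt_id s).div_const b
  have e1 := (Real.hasDerivAt_arcsin (x := s / b) (by linarith) hx1.ne).comp s e0
  refine HasDerivAt.congr_deriv e1 ?_
  change 1 / cc b s * (1 / b) = _
  field_simp

lemma hd_B (h0 : 0 < s) (h1 : s < b) :
    HasDerivAt (fun s => s / b * cc b s) ((2 * cc b s ^ 2 - 1) / (b * cc b s)) s := by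
  have hb : 0 < b := h0.trans h1
  have hc := cc_pos h0 h1
  have e0 : HasDerivAt (fun s : ℝ => s / b) (1 / b) s := (hasDerivAt_id s).div_const b
  refine HasDerivAt.congr_deriv (e0.mul (hd_cc h0 h1)) ?_
  have hsq := cc_sq h0.le h1.le hb
  have hx : (s / b) ^ 2 = 1 - cc b s ^ 2 := by linarith
  obtain ⟨c, hcd⟩ : ∃ c, c = cc b s := ⟨_, rfl⟩
  obtain ⟨x, hxd⟩ : ∃ x, x = s / b := ⟨_, rfl⟩
  rw [← hcd] at hc hx ⊢
  rw [← hxd] at hx ⊢
  have hc' := hc.ne'
  have hb' := hb.ne'
  rw [eq_div_iff (by positivity)]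
  field_simp
  linear_combination (-1 : ℝ) * hx

lemma hd_C (h0 : 0 < s) (h1 : s < b) :
    HasDerivAt (fun s => (2 + (s / b) ^ 2) * cc b s) (-(3 * (s / b) ^ 3) / (b * cc b s)) s := by
  have hb : 0 < b := h0.trans h1
  have hc := cc_pos h0 h1
  have e0 : HasDerivAt (fun s : ℝ => s / b) (1 / b) s := (hasDerivAt_id s).div_const b
  refine HasDerivAt.congr_deriv (((e0.pow 2).const_add 2).mul (hd_cc h0 h1)) ?_
  have hsq := cc_sq h0.le h1.le hb
  have hx : (s / b) ^ 2 = 1 - cc b s ^ 2 := by linarith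
  obtain ⟨c, hcd⟩ : ∃ c, c = cc b s := ⟨_, rfl⟩
  obtain ⟨x, hxd⟩ : ∃ x, x = s / b := ⟨_, rfl⟩
  simp only [Pi.pow_apply]
  rw [← hcd] at hc hx ⊢
  rw [← hxd] at hx ⊢
  have hc' := hc.ne'
  have hb' := hb.ne'
  rw [eq_div_iff (by positivity)]
  push_cast
  field_simp
  linear_combination (2 * x) * hx

lemma hd_psi (p q : ℝ) (h0 : 0 < s) (h1 : s < b) :
    HasDerivAt (psi p q b) (((p + q) - 2 * q * cc b s ^ 2) * (1 - cc b s ^ 2) / (4 * cc b s * s ^ 2)
      - (3 - 3 * cc b s ^ 2 + 2 * cc b s ^ 4) / (3 * cc b s * s ^ 2)) s := by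
  have hb : 0 < b := h0.trans h1
  have hc := cc_pos h0 h1
  have e1 := (((hd_arcsin h0 h1).const_mul p).sub ((hd_B h0 h1).const_mul q)).const_mul
    (1 / (4 * b))
  have e2 := (hd_C h0 h1).div ((hasDerivAt_id s).const_mul 3) (by simp only [id]; positivity)
  refine HasDerivAt.congr_deriv (f := psi p q b) (e1.add e2) ?_
  have hsq := cc_sq h0.le h1.le hb
  have hx : (s / b) ^ 2 = 1 - cc b s ^ 2 := by linarith
  obtain ⟨c, hcd⟩ : ∃ c, c = cc b s := ⟨_, rfl⟩
  obtain ⟨x, hxd⟩ : ∃ x, x = s / b := ⟨_, rfl⟩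
  have hs : s = x * b := by rw [hxd]; field_simp
  simp only [id]
  rw [← hcd] at hc hx ⊢
  rw [← hxd] at hx ⊢
  have hx0 : 0 < x := by rw [hxd]; positivity
  rw [hs]
  have hc' := hc.ne'
  have hb' := hb.ne'
  have hx' := hx0.ne'
  have hx4 : x ^ 4 = (1 - c ^ 2) ^ 2 := by rw [← hx]; ring
  have key : 1 / (4 * b) * (p * (1 / (b * c)) - q * ((2 * c ^ 2 - 1) / (b * c))) +
      (-(3 * x ^ 3) / (b * c) * (3 * (x * b)) - (2 + x ^ 2) * c * (3 * 1)) / (3 * (x * b)) ^ 2 =
      (((p + q) - 2 * q * c ^ 2) * x ^ 2 / (4 * c * (x * b) ^ 2)) -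
      (3 * x ^ 4 + (2 + x ^ 2) * c ^ 2) / (3 * c * (x * b) ^ 2) := by
    field_simp
    ring
  rw [key, hx4, hx]
  ring

lemma tendsto_psi (p q : ℝ) (hb : 0 < b) :
    Tendsto (fun s => psi p q b s - 2 / (3 * s)) (𝓝[>] 0) (𝓝 0) := by
  have hcont : Tendsto (fun s => 1 / (4 * b) * (p * Real.arcsin (s / b) - q * (s / b * cc b s)))
      (𝓝[>] 0) (𝓝 0) := by
    have h : Continuous (fun s => 1 / (4 * b) * (p * Real.arcsin (s / b) - q * (s / b * cc b s))) := by
      unfold cc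
      have := Real.continuous_arcsin
      fun_prop
    have h2 := (h.tendsto 0).mono_left (nhdsWithin_le_nhds (s := Ioi (0 : ℝ)))
    simpa using h2
  have h2 : Tendsto (fun s => ((2 + (s / b) ^ 2) * cc b s - 2) / (3 * s)) (𝓝[>] 0) (𝓝 0) := by
    have hid : Tendsto (fun s : ℝ => s / b ^ 2) (𝓝[>] 0) (𝓝 0) := by
      have := ((continuous_id.div_const (b ^ 2)).tendsto (0 : ℝ)).mono_left
        (nhdsWithin_le_nhds (s := Ioi (0 : ℝ)))
      simpa using this
    refine squeeze_zero_norm' ?_ hid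
    filter_upwards [Ioo_mem_nhdsGT hb] with s hs
    have hs0 : 0 < s := hs.1
    have hsb : s < b := hs.2
    have hsq := cc_sq hs0.le hsb.le hb
    have hc0 := cc_nonneg b s
    have hc1 := cc_le_one b s
    rw [Real.norm_eq_abs, abs_div, abs_of_pos (by positivity : (0 : ℝ) < 3 * s),
      div_le_iff₀ (by positivity), abs_le]
    have e1 : s / b ^ 2 * (3 * s) = 3 * (s / b) ^ 2 := by field_simp
    rw [e1]
    obtain ⟨x, hx⟩ : ∃ x, x = (s / b) ^ 2 := ⟨_, rfl⟩
    rw [← hx] at hsq ⊢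
    have hx0 : 0 ≤ x := by rw [hx]; positivity
    have hx1 : x ≤ 1 := by nlinarith
    constructor
    · nlinarith
    · nlinarith
  have h3 := hcont.add h2
  rw [add_zero] at h3
  refine h3.congr' ?_
  filter_upwards [self_mem_nhdsWithin] with s hs
  have hs0 : (0 : ℝ) < s := hs
  unfold psi
  rw [sub_div]
  ring

lemma psi_zero (p q b : ℝ) : psi p q b 0 = 0 := by
  unfold psi
  simp

/-- The limit when the radius decreases to the maximum of the profile. -/
lemma tendsto_radius (p q : ℝ) {m : ℝ} (hm : 0 < m) :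
    Tendsto (fun b => psi p q b m) (𝓝[>] m) (𝓝 (p * Real.pi / (8 * m))) := by
  have h : ContinuousAt (fun b => psi p q b m) m := by
    unfold psi cc
    have h1 : ContinuousAt (fun b : ℝ => m / b) m :=
      continuousAt_const.div continuousAt_id hm.ne'
    have h2 : ContinuousAt (fun b : ℝ => Real.arcsin (m / b)) m :=
      Real.continuous_arcsin.continuousAt.comp h1
    have h3 : ContinuousAt (fun b : ℝ => Real.sqrt (1 - (m / b) ^ 2)) m :=
      Real.continuous_sqrt.continuousAt.comp (continuousAt_const.sub (h1.pow 2))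
    have h4 : ContinuousAt (fun b : ℝ => 1 / (4 * b)) m :=
      continuousAt_const.div (continuousAt_const.mul continuousAt_id) (by simp [hm.ne'])
    exact (h4.mul ((continuousAt_const.mul h2).sub (continuousAt_const.mul (h1.mul h3)))).add
      (((continuousAt_const.add (h1.pow 2)).mul h3).div_const _)
  have h2 := (h.tendsto).mono_left (nhdsWithin_le_nhds (s := Ioi m))
  have h3 : psi p q m m = p * Real.pi / (8 * m) := by
    unfold psi cc
    rw [div_self hm.ne']
    simp only [one_pow, sub_self, Real.sqrt_zero, mul_zero, sub_zero, Real.arcsin_one, zero_div,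
      add_zero]
    field_simp
    ring
  rwa [h3] at h2

end Pool.Agent.R259.RS
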