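import Mathlib
import Pool.Agent.R259.RS.Psi

set_option autoImplicit false

/-!
# The inequalities for the integrals
-/

namespace Pool.Agent.R259.RS

open Set Filter Topology MeasureTheory

/-- `f` is the profile of a rotationally symmetric metric on the sphere `S ^ 3`, where `L` is the
distance of the two poles. -/
structure IsSphere (f : ℝ → ℝ) (L : ℝ) : Prop where
  L_pos : 0 < L
  smooth : ContDiff ℝ 2 f
  left : f 0 = 0
  right : f L = 0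
  deriv_left : deriv f 0 = 1
  deriv_right : deriv f L = -1
  pos : ∀ r ∈ Ioo 0 L, 0 < f r

/-- `f` is the profile of a rotationally symmetric metric on `S ^ 2 × S ^ 1`, where `L` is the
length of the circle. -/
structure IsCircle (f : ℝ → ℝ) (L : ℝ) : Prop where
  L_pos : 0 < L
  smooth : ContDiff ℝ 2 f
  periodic : ∀ r, f (r + L) = f r
  pos : ∀ r, 0 < f r

/-- The derivative of `psi`. -/
noncomputable def dpsi (p q b s : ℝ) : ℝ :=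
  ((p + q) - 2 * q * cc b s ^ 2) * (1 - cc b s ^ 2) / (4 * cc b s * s ^ 2)
      - (3 - 3 * cc b s ^ 2 + 2 * cc b s ^ 4) / (3 * cc b s * s ^ 2)

/-- The densities. -/
noncomputable def Dg (e₁ e₂ e₃ : ℝ) (f : ℝ → ℝ) (r : ℝ) : ℝ :=
  e₁ * y1 f r + e₂ * x1 f r + e₃ * f r ^ 2

/-- The pointwise inequality for `J`. -/
lemma ineqJ {f : ℝ → ℝ} {b r : ℝ} (h0 : 0 < f r) (h1 : f r < b) (hu : |deriv f r| ≤ 1) :
    Dg 1 (1 / (2 * b ^ 2)) 0 f r ≤ dPhi (dpsi 3 1 b) f (1 / (2 * b ^ 2)) r := by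
  have hb : 0 < b := h0.trans h1
  have hc := cc_pos h0 h1
  have hc1 := cc_le_one b (f r)
  have hsq := cc_sq h0.le h1.le hb
  rw [abs_le] at hu
  unfold Dg dPhi dpsi y1 x1
  obtain ⟨c, hcd⟩ : ∃ c, c = cc b (f r) := ⟨_, rfl⟩
  obtain ⟨F, hF⟩ : ∃ F, F = f r := ⟨_, rfl⟩
  obtain ⟨u, hud⟩ : ∃ u, u = deriv f r := ⟨_, rfl⟩
  obtain ⟨v, hv⟩ : ∃ v, v = deriv (deriv f) r := ⟨_, rfl⟩
  rw [← hcd] at hc hc1 hsq ⊢
  rw [← hF] at h0 hsq ⊢
  rw [← hud] at hu ⊢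
  rw [← hv]
  have he : 1 / (2 * b ^ 2) = (1 - c ^ 2) / (2 * F ^ 2) := by
    rw [hsq]
    field_simp
    ring
  rw [he]
  have key : (((3 + 1) - 2 * 1 * c ^ 2) * (1 - c ^ 2) / (4 * c * F ^ 2)
      - (3 - 3 * c ^ 2 + 2 * c ^ 4) / (3 * c * F ^ 2)) * u - (1 - u ^ 2) * v / F +
      (3 * u ^ 2 - u ^ 4) / (3 * F ^ 2) - (1 - c ^ 2) / (2 * F ^ 2) * (u ^ 2 + F * v) -
      (1 * (-(v * (1 - u ^ 2) / F) - (1 - u ^ 2) ^ 2 / (4 * F ^ 2)) +
        (1 - c ^ 2) / (2 * F ^ 2) * (-(F * v) + (1 - u ^ 2) / 2) + 0 * F ^ 2) =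
      (u - c) ^ 2 * (3 - u ^ 2 - 2 * c * u) / (12 * F ^ 2) := by
    field_simp
    ring
  have h3 : 0 ≤ (u - c) ^ 2 * (3 - u ^ 2 - 2 * c * u) / (12 * F ^ 2) := by
    have : 0 ≤ 3 - u ^ 2 - 2 * c * u := by nlinarith
    positivity
  linarith

/-- The pointwise inequality for `J₂`. -/
lemma ineqV {f : ℝ → ℝ} {b r : ℝ} (h0 : 0 < f r) (h1 : f r < b) (hu : |deriv f r| ≤ 1) :
    Dg 1 0 (1 / (4 * b ^ 4)) f r ≤ dPhi (dpsi 2 2 b) f 0 r := by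
  have hb : 0 < b := h0.trans h1
  have hc := cc_pos h0 h1
  have hc1 := cc_le_one b (f r)
  have hsq := cc_sq h0.le h1.le hb
  rw [abs_le] at hu
  unfold Dg dPhi dpsi y1 x1
  obtain ⟨c, hcd⟩ : ∃ c, c = cc b (f r) := ⟨_, rfl⟩
  obtain ⟨F, hF⟩ : ∃ F, F = f r := ⟨_, rfl⟩
  obtain ⟨u, hud⟩ : ∃ u, u = deriv f r := ⟨_, rfl⟩
  obtain ⟨v, hv⟩ : ∃ v, v = deriv (deriv f) r := ⟨_, rfl⟩
  rw [← hcd] at hc hc1 hsq ⊢
  rw [← hF] at h0 hsq ⊢
  rw [← hud] at hu ⊢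
  rw [← hv]
  have he : 1 / (4 * b ^ 4) = (1 - c ^ 2) ^ 2 / (4 * F ^ 4) := by
    rw [hsq]
    field_simp
    ring
  rw [he]
  have key : (((2 + 2) - 2 * 2 * c ^ 2) * (1 - c ^ 2) / (4 * c * F ^ 2)
      - (3 - 3 * c ^ 2 + 2 * c ^ 4) / (3 * c * F ^ 2)) * u - (1 - u ^ 2) * v / F +
      (3 * u ^ 2 - u ^ 4) / (3 * F ^ 2) - 0 * (u ^ 2 + F * v) -
      (1 * (-(v * (1 - u ^ 2) / F) - (1 - u ^ 2) ^ 2 / (4 * F ^ 2)) +
        0 * (-(F * v) + (1 - u ^ 2) / 2) + (1 - c ^ 2) ^ 2 / (4 * F ^ 4) * F ^ 2) =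
      (u - c) ^ 2 * (6 - u ^ 2 - 2 * c * u - 3 * c ^ 2) / (12 * F ^ 2) := by
    field_simp
    ring
  have h3 : 0 ≤ (u - c) ^ 2 * (6 - u ^ 2 - 2 * c * u - 3 * c ^ 2) / (12 * F ^ 2) := by
    have : 0 ≤ 6 - u ^ 2 - 2 * c * u - 3 * c ^ 2 := by nlinarith
    positivity
  linarith

lemma Dg_refl {f : ℝ → ℝ} (hf : ContDiff ℝ 2 f) (e₁ e₂ e₃ L r : ℝ) :
    Dg e₁ e₂ e₃ (fun r => f (L - r)) r = Dg e₁ e₂ e₃ f (L - r) := by
  unfold Dg
  rw [x1_refl hf, y1_refl hf]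

variable {f : ℝ → ℝ} {L : ℝ}

/-- `|f'| ≤ 1` if the scalar curvature is positive. -/
lemma IsSphere.abs_le (h : IsSphere f L) (hx : ∀ r ∈ Ioo 0 L, 0 < x1 f r) {r : ℝ}
    (hr : r ∈ Ioo 0 L) : |deriv f r| ≤ 1 := by
  rw [_root_.abs_le]
  constructor
  · refine neg_one_le_deriv h.smooth hr.2.le h.deriv_right.ge ?_ ?_
    · intro r' hr'
      exact h.pos r' ⟨hr.1.trans_le hr'.1, hr'.2⟩
    · intro r' hr'
      exact hx r' ⟨hr.1.trans hr'.1, hr'.2⟩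
  · refine deriv_le_one h.smooth hr.1.le h.deriv_left.le ?_ ?_
    · intro r' hr'
      exact h.pos r' ⟨hr'.1, hr'.2.trans_lt hr.2⟩
    · intro r' hr'
      exact hx r' ⟨hr'.1, hr'.2.trans hr.2⟩

/-- the maximum of the profile -/
lemma IsSphere.exists_max (h : IsSphere f L) : ∃ c ∈ Ioo 0 L, deriv f c = 0 ∧
    ∀ r ∈ Icc 0 L, f r ≤ f c := by
  obtain ⟨c, hc, hmax⟩ := isCompact_Icc.exists_isMaxOn (nonempty_Icc.2 h.L_pos.le)
    (c0 h.smooth).continuousOn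
  have hmid : L / 2 ∈ Ioo 0 L := ⟨by linarith [h.L_pos], by linarith [h.L_pos]⟩
  have h1 : 0 < f c := (h.pos _ hmid).trans_le (hmax (Ioo_subset_Icc_self hmid))
  have hc' : c ∈ Ioo 0 L := by
    refine ⟨hc.1.lt_of_ne ?_, hc.2.lt_of_ne ?_⟩
    · rintro rfl
      rw [h.left] at h1
      exact lt_irrefl _ h1
    · rintro rfl
      rw [h.right] at h1
      exact lt_irrefl _ h1
  refine ⟨c, hc', ?_, fun r hr => hmax hr⟩
  have : IsLocalMax f c := by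
    filter_upwards [Icc_mem_nhds hc'.1 hc'.2] with r hr
    exact hmax hr
  exact this.deriv_eq_zero

/-- **The calibration argument on the sphere.** -/
theorem IsSphere.bound (h : IsSphere f L) {c b : ℝ} (hc : c ∈ Ioo 0 L)
    (hcrit : deriv f c = 0) (hmax : ∀ r ∈ Icc 0 L, f r ≤ f c) (hb : f c < b)
    {p q e e₁ e₂ e₃ : ℝ} (hint : IntervalIntegrable (Dg e₁ e₂ e₃ f) volume 0 L)
    (hle : ∀ r ∈ Ioo 0 L, Dg e₁ e₂ e₃ f r ≤ dPhi (dpsi p q b) f e r)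
    (hle' : ∀ r ∈ Ioo 0 L, Dg e₁ e₂ e₃ (fun r => f (L - r)) r ≤
      dPhi (dpsi p q b) (fun r => f (L - r)) e r) :
    ∫ r in (0 : ℝ)..L, Dg e₁ e₂ e₃ f r ≤ 2 * psi p q b (f c) := by
  have hb0 : 0 < b := (h.pos c hc).trans hb
  have hψ : ∀ s ∈ Ioo 0 b, HasDerivAt (psi p q b) (dpsi p q b s) s :=
    fun s hs => hd_psi p q hs.1 hs.2
  have hi1 : IntervalIntegrable (Dg e₁ e₂ e₃ f) volume 0 c := by
    refine hint.mono_set ?_
    rw [uIcc_of_le hc.1.le, uIcc_of_le h.L_pos.le]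
    exact Icc_subset_Icc_right hc.2.le
  have hi2 : IntervalIntegrable (Dg e₁ e₂ e₃ f) volume c L := by
    refine hint.mono_set ?_
    rw [uIcc_of_le hc.2.le, uIcc_of_le h.L_pos.le]
    exact Icc_subset_Icc_left hc.1.le
  have H1 := half (e := e) h.smooth hc.1 h.left h.deriv_left
    (fun r hr => h.pos r ⟨hr.1, hr.2.trans_lt hc.2⟩)
    (fun r hr => (hmax r ⟨hr.1.le, hr.2.trans hc.2.le⟩).trans_lt hb) hcrit hψ (psi_zero _ _ _)
    (tendsto_psi p q hb0) hi1 (fun r hr => hle r ⟨hr.1, hr.2.trans hc.2⟩)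
  have hD : Dg e₁ e₂ e₃ (fun r => f (L - r)) = fun r => Dg e₁ e₂ e₃ f (L - r) := by
    funext r
    exact Dg_refl h.smooth _ _ _ _ _
  have hi3 : IntervalIntegrable (Dg e₁ e₂ e₃ (fun r => f (L - r))) volume 0 (L - c) := by
    rw [hD]
    have := (hi2.comp_sub_left L).symm
    simpa using this
  have H2 := half (e := e) (f := fun r => f (L - r)) (c := L - c) (cd_refl h.smooth L)
    (by linarith [hc.2]) (by simp only [sub_zero]; exact h.right)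
    (by rw [deriv_refl h.smooth, sub_zero, h.deriv_right]; norm_num)
    (fun r hr => h.pos _ ⟨by linarith [hr.2, hc.1], by linarith [hr.1]⟩)
    (fun r hr => (hmax _ ⟨by linarith [hr.2, hc.1], by linarith [hr.1]⟩).trans_lt hb)
    (by rw [deriv_refl h.smooth]; simp [hcrit]) hψ (psi_zero _ _ _)
    (tendsto_psi p q hb0) hi3 (fun r hr => hle' r ⟨hr.1, by linarith [hr.2, hc.1]⟩)
  have e1 : ∫ r in (0 : ℝ)..(L - c), Dg e₁ e₂ e₃ (fun r => f (L - r)) r =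
      ∫ r in c..L, Dg e₁ e₂ e₃ f r := by
    rw [hD, intervalIntegral.integral_comp_sub_left (fun r => Dg e₁ e₂ e₃ f r) L]
    simp
  rw [e1] at H2
  rw [← intervalIntegral.integral_add_adjacent_intervals hi1 hi2]
  simp only [sub_sub_cancel] at H2
  linarith

end Pool.Agent.R259.RS
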