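import Mathlib
import Pool.Agent.R259.RS.Main

set_option autoImplicit false

/-!
# The inequalities for `J`, `J₂` and the quotient
-/

namespace Pool.Agent.R259.RS

open Set Filter Topology MeasureTheory

variable {f : ℝ → ℝ} {L : ℝ}

lemma IsSphere.sigma1_eq' (h : IsSphere f L) {r : ℝ} (hr : r ∈ Icc 0 L) :
    sigma1 f r * (4 * Real.pi * f r ^ 2) = 4 * Real.pi * x1 f r := by
  rcases hr.1.lt_or_eq with h1 | h1
  · rcases hr.2.lt_or_eq with h2 | h2
    · rw [← sigma1_mul (h.pos r ⟨h1, h2⟩).ne']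
      ring
    · rw [h2, h.right]
      unfold x1
      rw [h.right, h.deriv_right]
      ring
  · rw [← h1, h.left]
    unfold x1
    rw [h.left, h.deriv_left]
    ring

lemma IsSphere.sigma2_eq' (h : IsSphere f L) {r : ℝ} (hr : r ∈ Icc 0 L) :
    sigma2 f r * (4 * Real.pi * f r ^ 2) = 4 * Real.pi * y1 f r := by
  rcases hr.1.lt_or_eq with h1 | h1
  · rcases hr.2.lt_or_eq with h2 | h2
    · rw [← sigma2_mul (h.pos r ⟨h1, h2⟩).ne']
      ring
    · rw [h2, h.right]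
      unfold y1
      rw [h.right, h.deriv_right]
      simp
  · rw [← h1, h.left]
    unfold y1
    rw [h.left, h.deriv_left]
    simp

lemma IsSphere.total1 (h : IsSphere f L) :
    total (sigma1 f) f L = 4 * Real.pi * ∫ r in (0 : ℝ)..L, x1 f r := by
  unfold total
  rw [← intervalIntegral.integral_const_mul]
  refine intervalIntegral.integral_congr fun r hr => ?_
  rw [uIcc_of_le h.L_pos.le] at hr
  exact h.sigma1_eq' hr

lemma IsSphere.total2 (h : IsSphere f L) :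
    total (sigma2 f) f L = 4 * Real.pi * ∫ r in (0 : ℝ)..L, y1 f r := by
  unfold total
  rw [← intervalIntegral.integral_const_mul]
  refine intervalIntegral.integral_congr fun r hr => ?_
  rw [uIcc_of_le h.L_pos.le] at hr
  exact h.sigma2_eq' hr

lemma total0 (f : ℝ → ℝ) (L : ℝ) :
    total (fun _ => 1) f L = 4 * Real.pi * ∫ r in (0 : ℝ)..L, f r ^ 2 := by
  unfold total
  rw [← intervalIntegral.integral_const_mul]
  refine intervalIntegral.integral_congr fun r _ => ?_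
  simp only
  ring

lemma IsSphere.x1_pos' (h : IsSphere f L) (hs : ∀ r ∈ Ioo 0 L, 0 < scal f r) :
    ∀ r ∈ Ioo 0 L, 0 < x1 f r := fun r hr => x1_pos (h.pos r hr) (hs r hr)

lemma Dg_int {e₁ e₂ e₃ : ℝ} (hf : ContDiff ℝ 2 f) {a b : ℝ}
    (hy : e₁ = 0 ∨ IntervalIntegrable (y1 f) volume a b) :
    IntervalIntegrable (Dg e₁ e₂ e₃ f) volume a b := by
  have h1 : IntervalIntegrable (fun r => e₁ * y1 f r) volume a b := by
    rcases hy with rfl | hy
    · simp
    · exact hy.const_mul e₁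
  have h2 : IntervalIntegrable (fun r => e₂ * x1 f r) volume a b :=
    ((x1_cont hf).intervalIntegrable a b).const_mul e₂
  have h3 : IntervalIntegrable (fun r => e₃ * f r ^ 2) volume a b :=
    (((c0 hf).pow 2).intervalIntegrable a b).const_mul e₃
  exact (h1.add h2).add h3

lemma Dg_integral {e₁ e₂ e₃ : ℝ} (hf : ContDiff ℝ 2 f) {a b : ℝ}
    (hy : e₁ = 0 ∨ IntervalIntegrable (y1 f) volume a b) :
    ∫ r in a..b, Dg e₁ e₂ e₃ f r =
      e₁ * (∫ r in a..b, y1 f r) + e₂ * (∫ r in a..b, x1 f r) + e₃ * ∫ r in a..b, f r ^ 2 := by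
  have h1 : IntervalIntegrable (fun r => e₁ * y1 f r) volume a b := by
    rcases hy with rfl | hy
    · simp
    · exact hy.const_mul e₁
  have h2 : IntervalIntegrable (fun r => e₂ * x1 f r) volume a b :=
    ((x1_cont hf).intervalIntegrable a b).const_mul e₂
  have h3 : IntervalIntegrable (fun r => e₃ * f r ^ 2) volume a b :=
    (((c0 hf).pow 2).intervalIntegrable a b).const_mul e₃
  unfold Dg
  rw [intervalIntegral.integral_add (h1.add h2) h3, intervalIntegral.integral_add h1 h2,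
    intervalIntegral.integral_const_mul, intervalIntegral.integral_const_mul,
    intervalIntegral.integral_const_mul]

/-- The main inequality for `σ₁` and `σ₂`. -/
theorem IsSphere.mainJ (h : IsSphere f L) (hs : ∀ r ∈ Ioo 0 L, 0 < scal f r)
    (hy : IntervalIntegrable (y1 f) volume 0 L) : ∃ m : ℝ, 0 < m ∧
    (∫ r in (0 : ℝ)..L, y1 f r) + 1 / (2 * m ^ 2) * (∫ r in (0 : ℝ)..L, x1 f r) ≤
      3 * Real.pi / (4 * m) := by
  obtain ⟨c, hc, hcrit, hmax⟩ := h.exists_max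
  have hx := h.x1_pos' hs
  have hm : 0 < f c := h.pos c hc
  refine ⟨f c, hm, ?_⟩
  have key : ∀ b, f c < b → (∫ r in (0 : ℝ)..L, y1 f r) + 1 / (2 * b ^ 2) *
      (∫ r in (0 : ℝ)..L, x1 f r) ≤ 2 * psi 3 1 b (f c) := by
    intro b hb
    have h1 := h.bound hc hcrit hmax hb (p := 3) (q := 1) (e := 1 / (2 * b ^ 2)) (e₁ := 1)
      (e₂ := 1 / (2 * b ^ 2)) (e₃ := 0) (Dg_int h.smooth (Or.inr hy))
      (fun r hr => ineqJ (h.pos r hr) ((hmax r (Ioo_subset_Icc_self hr)).trans_lt hb)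
        (h.abs_le hx hr))
      (fun r hr => by
        have hr' : L - r ∈ Ioo 0 L := ⟨by linarith [hr.2], by linarith [hr.1]⟩
        refine ineqJ (h.pos _ hr') ((hmax _ (Ioo_subset_Icc_self hr')).trans_lt hb) ?_
        rw [deriv_refl h.smooth, abs_neg]
        exact h.abs_le hx hr')
    rw [Dg_integral h.smooth (Or.inr hy)] at h1
    linarith
  have t1 : Tendsto (fun b : ℝ => (∫ r in (0 : ℝ)..L, y1 f r) + 1 / (2 * b ^ 2) *
      (∫ r in (0 : ℝ)..L, x1 f r)) (𝓝[>] (f c)) (𝓝 ((∫ r in (0 : ℝ)..L, y1 f r) +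
        1 / (2 * f c ^ 2) * (∫ r in (0 : ℝ)..L, x1 f r))) := by
    have : ContinuousAt (fun b : ℝ => (∫ r in (0 : ℝ)..L, y1 f r) + 1 / (2 * b ^ 2) *
      (∫ r in (0 : ℝ)..L, x1 f r)) (f c) := by
      have h4 : ContinuousAt (fun b : ℝ => 1 / (2 * b ^ 2)) (f c) :=
        continuousAt_const.div (continuousAt_const.mul (continuousAt_id.pow 2))
          (by simp [hm.ne'])
      exact continuousAt_const.add (h4.mul continuousAt_const)
    exact this.tendsto.mono_left nhdsWithin_le_nhds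
  have t2 := (tendsto_radius 3 1 hm).const_mul 2
  have h3 := le_of_tendsto_of_tendsto t1 t2 (by
    filter_upwards [self_mem_nhdsWithin] with b hb
    exact key b hb)
  refine h3.trans (le_of_eq ?_)
  field_simp
  ring

/-- The main inequality for the volume and `σ₂`. -/
theorem IsSphere.mainV (h : IsSphere f L) (hs : ∀ r ∈ Ioo 0 L, 0 < scal f r)
    (hy : IntervalIntegrable (y1 f) volume 0 L) : ∃ m : ℝ, 0 < m ∧
    (∫ r in (0 : ℝ)..L, y1 f r) + 1 / (4 * m ^ 4) * (∫ r in (0 : ℝ)..L, f r ^ 2) ≤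
      Real.pi / (2 * m) := by
  obtain ⟨c, hc, hcrit, hmax⟩ := h.exists_max
  have hx := h.x1_pos' hs
  have hm : 0 < f c := h.pos c hc
  refine ⟨f c, hm, ?_⟩
  have key : ∀ b, f c < b → (∫ r in (0 : ℝ)..L, y1 f r) + 1 / (4 * b ^ 4) *
      (∫ r in (0 : ℝ)..L, f r ^ 2) ≤ 2 * psi 2 2 b (f c) := by
    intro b hb
    have h1 := h.bound hc hcrit hmax hb (p := 2) (q := 2) (e := 0) (e₁ := 1)
      (e₂ := 0) (e₃ := 1 / (4 * b ^ 4)) (Dg_int h.smooth (Or.inr hy))
      (fun r hr => ineqV (h.pos r hr) ((hmax r (Ioo_subset_Icc_self hr)).trans_lt hb)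
        (h.abs_le hx hr))
      (fun r hr => by
        have hr' : L - r ∈ Ioo 0 L := ⟨by linarith [hr.2], by linarith [hr.1]⟩
        refine ineqV (h.pos _ hr') ((hmax _ (Ioo_subset_Icc_self hr')).trans_lt hb) ?_
        rw [deriv_refl h.smooth, abs_neg]
        exact h.abs_le hx hr')
    rw [Dg_integral h.smooth (Or.inr hy)] at h1
    linarith
  have t1 : Tendsto (fun b : ℝ => (∫ r in (0 : ℝ)..L, y1 f r) + 1 / (4 * b ^ 4) *
      (∫ r in (0 : ℝ)..L, f r ^ 2)) (𝓝[>] (f c)) (𝓝 ((∫ r in (0 : ℝ)..L, y1 f r) +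
        1 / (4 * f c ^ 4) * (∫ r in (0 : ℝ)..L, f r ^ 2))) := by
    have : ContinuousAt (fun b : ℝ => (∫ r in (0 : ℝ)..L, y1 f r) + 1 / (4 * b ^ 4) *
      (∫ r in (0 : ℝ)..L, f r ^ 2)) (f c) := by
      have h4 : ContinuousAt (fun b : ℝ => 1 / (4 * b ^ 4)) (f c) :=
        continuousAt_const.div (continuousAt_const.mul (continuousAt_id.pow 4))
          (by simp [hm.ne'])
      exact continuousAt_const.add (h4.mul continuousAt_const)
    exact this.tendsto.mono_left nhdsWithin_le_nhds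
  have t2 := (tendsto_radius 2 2 hm).const_mul 2
  have h3 := le_of_tendsto_of_tendsto t1 t2 (by
    filter_upwards [self_mem_nhdsWithin] with b hb
    exact key b hb)
  refine h3.trans (le_of_eq ?_)
  field_simp
  ring

/-- The main inequality for `σ₁` if `σ₂ ≥ σ₁ / 2`. -/
theorem IsSphere.mainQ (h : IsSphere f L) (hs : ∀ r ∈ Ioo 0 L, 0 < scal f r)
    (hq : ∀ r ∈ Ioo 0 L, x1 f r / 2 ≤ y1 f r) : ∃ m : ℝ, 0 < m ∧
    (1 / 2 + 1 / (2 * m ^ 2)) * (∫ r in (0 : ℝ)..L, x1 f r) ≤ 3 * Real.pi / (4 * m) := by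
  obtain ⟨c, hc, hcrit, hmax⟩ := h.exists_max
  have hx := h.x1_pos' hs
  have hm : 0 < f c := h.pos c hc
  refine ⟨f c, hm, ?_⟩
  have key : ∀ b, f c < b → (1 / 2 + 1 / (2 * b ^ 2)) *
      (∫ r in (0 : ℝ)..L, x1 f r) ≤ 2 * psi 3 1 b (f c) := by
    intro b hb
    have h1 := h.bound hc hcrit hmax hb (p := 3) (q := 1) (e := 1 / (2 * b ^ 2)) (e₁ := 0)
      (e₂ := 1 / 2 + 1 / (2 * b ^ 2)) (e₃ := 0) (Dg_int h.smooth (Or.inl rfl))
      (fun r hr => by
        refine le_trans ?_ (ineqJ (h.pos r hr)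
          ((hmax r (Ioo_subset_Icc_self hr)).trans_lt hb) (h.abs_le hx hr))
        unfold Dg
        have := hq r hr
        nlinarith)
      (fun r hr => by
        have hr' : L - r ∈ Ioo 0 L := ⟨by linarith [hr.2], by linarith [hr.1]⟩
        have h5 := ineqJ (f := fun r => f (L - r)) (r := r) (h.pos _ hr')
          ((hmax _ (Ioo_subset_Icc_self hr')).trans_lt hb) (by
            rw [deriv_refl h.smooth, abs_neg]
            exact h.abs_le hx hr')
        refine le_trans ?_ h5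
        rw [Dg_refl h.smooth, Dg_refl h.smooth]
        unfold Dg
        have := hq _ hr'
        nlinarith)
    rw [Dg_integral h.smooth (Or.inl rfl)] at h1
    linarith
  have t1 : Tendsto (fun b : ℝ => (1 / 2 + 1 / (2 * b ^ 2)) *
      (∫ r in (0 : ℝ)..L, x1 f r)) (𝓝[>] (f c)) (𝓝 ((1 / 2 +
        1 / (2 * f c ^ 2)) * (∫ r in (0 : ℝ)..L, x1 f r))) := by
    have : ContinuousAt (fun b : ℝ => (1 / 2 + 1 / (2 * b ^ 2)) *
      (∫ r in (0 : ℝ)..L, x1 f r)) (f c) := by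
      have h4 : ContinuousAt (fun b : ℝ => 1 / (2 * b ^ 2)) (f c) :=
        continuousAt_const.div (continuousAt_const.mul (continuousAt_id.pow 2))
          (by simp [hm.ne'])
      exact (continuousAt_const.add h4).mul continuousAt_const
    exact this.tendsto.mono_left nhdsWithin_le_nhds
  have t2 := (tendsto_radius 3 1 hm).const_mul 2
  have h3 := le_of_tendsto_of_tendsto t1 t2 (by
    filter_upwards [self_mem_nhdsWithin] with b hb
    exact key b hb)
  refine h3.trans (le_of_eq ?_)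
  field_simp
  ring

lemma IsSphere.X_pos (h : IsSphere f L) (hs : ∀ r ∈ Ioo 0 L, 0 < scal f r) :
    0 < ∫ r in (0 : ℝ)..L, x1 f r := by
  refine intervalIntegral.intervalIntegral_pos_of_pos_on
    ((x1_cont h.smooth).intervalIntegrable _ _) ?_ h.L_pos
  exact h.x1_pos' hs

/-- **The inequality for `J` on the sphere.** -/
theorem IsSphere.J_le (h : IsSphere f L) (hs : ∀ r ∈ Ioo 0 L, 0 < scal f r) :
    total (sigma1 f) f L * total (sigma2 f) f L ≤ 9 * Real.pi ^ 4 / 2 := by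
  rw [h.total1, h.total2]
  have hX := h.X_pos hs
  have hpi := Real.pi_pos
  by_cases hy : IntervalIntegrable (y1 f) volume 0 L
  · obtain ⟨m, hm, hle⟩ := h.mainJ hs hy
    obtain ⟨X, hXd⟩ : ∃ X, X = ∫ r in (0 : ℝ)..L, x1 f r := ⟨_, rfl⟩
    obtain ⟨Y, hYd⟩ : ∃ Y, Y = ∫ r in (0 : ℝ)..L, y1 f r := ⟨_, rfl⟩
    rw [← hXd] at hX hle ⊢
    rw [← hYd] at hle ⊢
    rcases le_or_gt Y 0 with hY | hY
    · have : 4 * Real.pi * X * (4 * Real.pi * Y) ≤ 0 :=
        mul_nonpos_of_nonneg_of_nonpos (by positivity)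
          (mul_nonpos_of_nonneg_of_nonpos (by positivity) hY)
      have : 0 ≤ 9 * Real.pi ^ 4 / 2 := by positivity
      linarith
    · have h1 : 0 < 1 / (2 * m ^ 2) * X := by positivity
      have h2 : (Y + 1 / (2 * m ^ 2) * X) ^ 2 ≤ (3 * Real.pi / (4 * m)) ^ 2 :=
        pow_le_pow_left₀ (by positivity) hle 2
      have h3 : 4 * (Y * (1 / (2 * m ^ 2) * X)) ≤ (Y + 1 / (2 * m ^ 2) * X) ^ 2 := by
        nlinarith [sq_nonneg (Y - 1 / (2 * m ^ 2) * X)]
      have h4 : 4 * (Y * (1 / (2 * m ^ 2) * X)) = 2 * (X * Y) / m ^ 2 := by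
        field_simp
        ring
      have h5 : (3 * Real.pi / (4 * m)) ^ 2 = 9 * Real.pi ^ 2 / 16 / m ^ 2 := by
        field_simp
        ring
      have h6 : 2 * (X * Y) / m ^ 2 ≤ 9 * Real.pi ^ 2 / 16 / m ^ 2 := by
        rw [← h4, ← h5]
        exact h3.trans h2
      have h7 : 2 * (X * Y) ≤ 9 * Real.pi ^ 2 / 16 :=
        (div_le_div_iff_of_pos_right (by positivity)).1 h6
      calc 4 * Real.pi * X * (4 * Real.pi * Y) = 8 * Real.pi ^ 2 * (2 * (X * Y)) := by ring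
        _ ≤ 8 * Real.pi ^ 2 * (9 * Real.pi ^ 2 / 16) :=
            mul_le_mul_of_nonneg_left h7 (by positivity)
        _ = _ := by ring
  · rw [intervalIntegral.integral_undef hy]
    have : 0 ≤ 9 * Real.pi ^ 4 / 2 := by positivity
    simpa using this

/-- **The inequality for `J₂` on the sphere.** -/
theorem IsSphere.J2_le (h : IsSphere f L) (hs : ∀ r ∈ Ioo 0 L, 0 < scal f r) :
    total (fun _ => 1) f L ^ (1 / 3 : ℝ) * total (sigma2 f) f L ≤
      3 / 4 * (2 * Real.pi ^ 2) ^ (4 / 3 : ℝ) := by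
  rw [total0, h.total2]
  have hpi := Real.pi_pos
  have hV : 0 < ∫ r in (0 : ℝ)..L, f r ^ 2 := by
    refine intervalIntegral.intervalIntegral_pos_of_pos_on
      (((c0 h.smooth).pow 2).intervalIntegrable _ _) ?_ h.L_pos
    intro r hr
    have := h.pos r hr
    positivity
  have hRHS : (3 / 4 * (2 * Real.pi ^ 2) ^ (4 / 3 : ℝ)) ^ 3 = 27 * Real.pi ^ 8 / 4 := by
    rw [mul_pow, ← Real.rpow_natCast ((2 * Real.pi ^ 2) ^ (4 / 3 : ℝ)) 3,
      ← Real.rpow_mul (by positivity)]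
    have : (4 / 3 : ℝ) * ((3 : ℕ) : ℝ) = ((4 : ℕ) : ℝ) := by norm_num
    rw [this, Real.rpow_natCast]
    ring
  by_cases hy : IntervalIntegrable (y1 f) volume 0 L
  · obtain ⟨m, hm, hle⟩ := h.mainV hs hy
    obtain ⟨V, hVd⟩ : ∃ V, V = ∫ r in (0 : ℝ)..L, f r ^ 2 := ⟨_, rfl⟩
    obtain ⟨Y, hYd⟩ : ∃ Y, Y = ∫ r in (0 : ℝ)..L, y1 f r := ⟨_, rfl⟩
    rw [← hVd] at hV hle ⊢
    rw [← hYd] at hle ⊢
    rcases le_or_gt Y 0 with hY | hY
    · have h1 : (4 * Real.pi * V) ^ (1 / 3 : ℝ) * (4 * Real.pi * Y) ≤ 0 :=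
        mul_nonpos_of_nonneg_of_nonpos (by positivity)
          (mul_nonpos_of_nonneg_of_nonpos (by positivity) hY)
      have : 0 ≤ 3 / 4 * (2 * Real.pi ^ 2) ^ (4 / 3 : ℝ) := by positivity
      linarith
    · refine le_of_pow_le_pow_left₀ (n := 3) (by norm_num) (by positivity) ?_
      rw [hRHS, mul_pow, ← Real.rpow_natCast ((4 * Real.pi * V) ^ (1 / 3 : ℝ)) 3,
        ← Real.rpow_mul (by positivity)]
      have e3 : (1 / 3 : ℝ) * ((3 : ℕ) : ℝ) = 1 := by norm_num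
      rw [e3, Real.rpow_one]
      obtain ⟨B, hB⟩ : ∃ B, B = 1 / (4 * m ^ 4) * V := ⟨_, rfl⟩
      have hB0 : 0 < B := by rw [hB]; positivity
      rw [← hB] at hle
      have hVB : V = 4 * m ^ 4 * B := by rw [hB]; field_simp
      have h2 : (Y + B) ^ 4 ≤ (Real.pi / (2 * m)) ^ 4 :=
        pow_le_pow_left₀ (by positivity) hle 4
      have h3 : 256 * Y ^ 3 * B ≤ 27 * (Y + B) ^ 4 := by
        have e : 27 * (Y + B) ^ 4 - 256 * Y ^ 3 * B =
            (Y - 3 * B) ^ 2 * (27 * Y ^ 2 + 14 * Y * B + 3 * B ^ 2) := by ring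
        have : 0 ≤ (Y - 3 * B) ^ 2 * (27 * Y ^ 2 + 14 * Y * B + 3 * B ^ 2) := by positivity
        linarith
      have h4 : 256 * Y ^ 3 * B * m ^ 4 ≤ 27 * Real.pi ^ 4 / 16 := by
        calc 256 * Y ^ 3 * B * m ^ 4 ≤ 27 * (Real.pi / (2 * m)) ^ 4 * m ^ 4 := by
              refine mul_le_mul_of_nonneg_right ?_ (by positivity)
              linarith
          _ = _ := by
              field_simp
              ring
      rw [hVB]
      calc 4 * Real.pi * (4 * m ^ 4 * B) * (4 * Real.pi * Y) ^ 3 =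
            4 * Real.pi ^ 4 * (256 * Y ^ 3 * B * m ^ 4) := by ring
        _ ≤ 4 * Real.pi ^ 4 * (27 * Real.pi ^ 4 / 16) :=
            mul_le_mul_of_nonneg_left h4 (by positivity)
        _ = _ := by ring
  · rw [intervalIntegral.integral_undef hy]
    have : 0 ≤ 3 / 4 * (2 * Real.pi ^ 2) ^ (4 / 3 : ℝ) := by positivity
    simpa using this

/-- **The inequality for `S` on the sphere.** -/
theorem IsSphere.S_le (h : IsSphere f L) (hs : ∀ r ∈ Ioo 0 L, 0 < scal f r)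
    (hq : ∀ r ∈ Ioo 0 L, 1 / 2 ≤ sigma2 f r / sigma1 f r) :
    total (sigma1 f) f L ≤ 3 * Real.pi ^ 2 := by
  rw [h.total1]
  have hX := h.X_pos hs
  have hpi := Real.pi_pos
  obtain ⟨m, hm, hle⟩ := h.mainQ hs (fun r hr => by
    have h1 := hq r hr
    have h2 : 0 < sigma1 f r := by
      rw [sigma1_eq]
      have := hs r hr
      positivity
    rw [le_div_iff₀ h2] at h1
    have h3 := h.pos r hr
    rw [← sigma1_mul h3.ne', ← sigma2_mul h3.ne']
    have h4 : 0 < f r ^ 2 := by positivity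
    nlinarith)
  obtain ⟨X, hXd⟩ : ∃ X, X = ∫ r in (0 : ℝ)..L, x1 f r := ⟨_, rfl⟩
  rw [← hXd] at hX hle ⊢
  have h1 : (1 / 2 + 1 / (2 * m ^ 2)) * X = (m ^ 2 + 1) * X / (2 * m ^ 2) := by field_simp
  rw [h1, div_le_div_iff₀ (by positivity) (by positivity)] at hle
  have h2 : (m ^ 2 + 1) * X * (4 * m) = m * ((m ^ 2 + 1) * X * 4) := by ring
  have h3 : 3 * Real.pi * (2 * m ^ 2) = m * (6 * Real.pi * m) := by ring
  rw [h2, h3] at hle
  have h4 := le_of_mul_le_mul_left hle hm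
  have h5 : 2 * m * (X * 4) ≤ (m ^ 2 + 1) * (X * 4) := by
    refine mul_le_mul_of_nonneg_right ?_ (by positivity)
    nlinarith [sq_nonneg (m - 1)]
  have h6 : 2 * m * (X * 4) ≤ 2 * m * (3 * Real.pi) := by nlinarith
  have h7 := le_of_mul_le_mul_left h6 (by positivity)
  nlinarith

end Pool.Agent.R259.RS
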