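import Mathlib
import Pool.Agent.R259.RS.Final

set_option autoImplicit false

/-!
# Rotationally symmetric metrics on `S ^ 2 × S ^ 1`
-/

namespace Pool.Agent.R259.RS

open Set Filter Topology MeasureTheory

variable {f : ℝ → ℝ} {L : ℝ}

lemma y1_cont (hf : ContDiff ℝ 2 f) (hpos : ∀ r, 0 < f r) : Continuous (y1 f) := by
  unfold y1
  have h0 := c0 hf
  have h1 := c1 hf
  have h2 := c2 hf
  refine ((h2.mul (continuous_const.sub (h1.pow 2))).div h0 fun r => (hpos r).ne').neg.sub
    (((continuous_const.sub (h1.pow 2)).pow 2).div (continuous_const.mul (h0.pow 2)) fun r => ?_)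
  have := hpos r
  positivity

lemma IsCircle.dper (h : IsCircle f L) (r : ℝ) : deriv f (r + L) = deriv f r := by
  have h1 : (fun r => f (r + L)) = f := funext h.periodic
  have h2 : deriv (fun r => f (r + L)) r = deriv f (r + L) := by
    rw [deriv_comp_add_const]
  rw [← h2, h1]

lemma IsCircle.ddper (h : IsCircle f L) (r : ℝ) :
    deriv (deriv f) (r + L) = deriv (deriv f) r := by
  have h1 : (fun r => deriv f (r + L)) = deriv f := funext h.dper
  have h2 : deriv (fun r => deriv f (r + L)) r = deriv (deriv f) (r + L) := by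
    rw [deriv_comp_add_const]
  rw [← h2, h1]

lemma IsCircle.xper (h : IsCircle f L) : Function.Periodic (x1 f) L := by
  intro r
  unfold x1
  rw [h.ddper, h.dper, h.periodic]

lemma IsCircle.yper (h : IsCircle f L) : Function.Periodic (y1 f) L := by
  intro r
  unfold y1
  rw [h.ddper, h.dper, h.periodic]

lemma IsCircle.exists_max (h : IsCircle f L) : ∃ c, deriv f c = 0 ∧ ∀ r, f r ≤ f c := by
  obtain ⟨c, hc, hmax⟩ := isCompact_Icc.exists_isMaxOn (nonempty_Icc.2 h.L_pos.le)
    (c0 h.smooth).continuousOn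
  have hall : ∀ r, f r ≤ f c := by
    intro r
    have hp : Function.Periodic f L := h.periodic
    obtain ⟨r', hr', e⟩ := hp.exists_mem_Ico₀ h.L_pos r
    rw [e]
    exact hmax ⟨hr'.1, hr'.2.le⟩
  refine ⟨c, ?_, hall⟩
  have : IsLocalMax f c := Filter.Eventually.of_forall hall
  exact this.deriv_eq_zero

/-- **The calibration argument on `S ^ 2 × S ^ 1`.** -/
theorem IsCircle.main (h : IsCircle f L) (hs : ∀ r, 0 < scal f r) : ∃ m : ℝ, 0 < m ∧
    (∫ r in (0 : ℝ)..L, y1 f r) + 1 / (2 * m ^ 2) * (∫ r in (0 : ℝ)..L, x1 f r) ≤ 0 := by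
  obtain ⟨c, hcrit, hmax⟩ := h.exists_max
  have hx : ∀ r, 0 < x1 f r := fun r => x1_pos (h.pos r) (hs r)
  have hcritL : deriv f (c + L) = 0 := by rw [h.dper, hcrit]
  have hb : f c < f c + 1 := by linarith
  set b := f c + 1 with hbd
  have hb0 : 0 < b := (h.pos c).trans hb
  refine ⟨b, hb0, ?_⟩
  have habs : ∀ r ∈ Ioo c (c + L), |deriv f r| ≤ 1 := by
    intro r hr
    rw [abs_le]
    constructor
    · refine neg_one_le_deriv h.smooth hr.2.le (by rw [hcritL]; norm_num) ?_ ?_
      · exact fun r' _ => h.pos r'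
      · exact fun r' _ => hx r'
    · refine deriv_le_one h.smooth hr.1.le (by rw [hcrit]; norm_num) ?_ ?_
      · exact fun r' _ => h.pos r'
      · exact fun r' _ => hx r'
  have hd : ∀ r, HasDerivAt (Phi (psi 3 1 b) f (1 / (2 * b ^ 2)))
      (dPhi (dpsi 3 1 b) f (1 / (2 * b ^ 2)) r) r := fun r =>
    hasDeriv_Phi h.smooth (h.pos r) (hd_psi 3 1 (h.pos r) ((hmax r).trans_lt hb))
  have hyi : ∀ a b, IntervalIntegrable (y1 f) volume a b :=
    fun a b => (y1_cont h.smooth h.pos).intervalIntegrable a b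
  have H := intervalIntegral.integral_le_sub_of_hasDeriv_right_of_le
    (show c ≤ c + L by linarith [h.L_pos])
    (g := Phi (psi 3 1 b) f (1 / (2 * b ^ 2))) (g' := dPhi (dpsi 3 1 b) f (1 / (2 * b ^ 2)))
    (φ := Dg 1 (1 / (2 * b ^ 2)) 0 f) (fun r _ => (hd r).continuousAt.continuousWithinAt)
    (fun r _ => (hd r).hasDerivWithinAt)
    ((intervalIntegrable_iff_integrableOn_Icc_of_le (by linarith [h.L_pos])).1
      (Dg_int h.smooth (Or.inr (hyi _ _))))
    (fun r hr => ineqJ (h.pos r) ((hmax r).trans_lt hb) (habs r hr))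
  have e0 : Phi (psi 3 1 b) f (1 / (2 * b ^ 2)) (c + L) = Phi (psi 3 1 b) f (1 / (2 * b ^ 2)) c := by
    unfold Phi
    rw [h.periodic, h.dper]
  rw [e0, sub_self, Dg_integral h.smooth (Or.inr (hyi _ _))] at H
  have e1 := h.xper.intervalIntegral_add_eq 0 c
  have e2 := h.yper.intervalIntegral_add_eq 0 c
  rw [zero_add] at e1 e2
  rw [e1, e2]
  linarith

lemma IsCircle.total1 (h : IsCircle f L) :
    total (sigma1 f) f L = 4 * Real.pi * ∫ r in (0 : ℝ)..L, x1 f r := by
  unfold total
  rw [← intervalIntegral.integral_const_mul]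
  refine intervalIntegral.integral_congr fun r _ => ?_
  rw [← sigma1_mul (h.pos r).ne']
  ring

lemma IsCircle.total2 (h : IsCircle f L) :
    total (sigma2 f) f L = 4 * Real.pi * ∫ r in (0 : ℝ)..L, y1 f r := by
  unfold total
  rw [← intervalIntegral.integral_const_mul]
  refine intervalIntegral.integral_congr fun r _ => ?_
  rw [← sigma2_mul (h.pos r).ne']
  ring

/-- On `S ^ 2 × S ^ 1` the integral of `σ₁` is positive and the integral of `σ₂` is negative. -/
theorem IsCircle.signs (h : IsCircle f L) (hs : ∀ r, 0 < scal f r) :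
    0 < total (sigma1 f) f L ∧ total (sigma2 f) f L < 0 := by
  obtain ⟨m, hm, hle⟩ := h.main hs
  have hX : 0 < ∫ r in (0 : ℝ)..L, x1 f r := by
    refine intervalIntegral.intervalIntegral_pos_of_pos_on
      ((x1_cont h.smooth).intervalIntegrable _ _) ?_ h.L_pos
    exact fun r _ => x1_pos (h.pos r) (hs r)
  have hpi := Real.pi_pos
  rw [h.total1, h.total2]
  refine ⟨by positivity, ?_⟩
  have h1 : 0 < 1 / (2 * m ^ 2) * ∫ r in (0 : ℝ)..L, x1 f r := by positivity
  exact mul_neg_of_pos_of_neg (by positivity) (by linarith)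

end Pool.Agent.R259.RS
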