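import Mathlib
import Pool.Agent.R259.RS.Circle

set_option autoImplicit false

/-!
# The round sphere
-/

namespace Pool.Agent.R259.RS

open Set Filter Topology MeasureTheory

lemma dsin : deriv Real.sin = Real.cos := Real.deriv_sin

lemma ddsin : deriv (deriv Real.sin) = fun r => -Real.sin r := by
  rw [dsin]
  funext r
  exact Real.deriv_cos

/-- The unit sphere. -/
theorem isSphere_sin : IsSphere Real.sin Real.pi := by
  refine ⟨Real.pi_pos, Real.contDiff_sin, Real.sin_zero, Real.sin_pi, ?_, ?_, ?_⟩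
  · rw [dsin, Real.cos_zero]
  · rw [dsin, Real.cos_pi]
  · exact fun r hr => Real.sin_pos_of_mem_Ioo hr

lemma x1_sin (r : ℝ) : x1 Real.sin r = 3 / 2 * Real.sin r ^ 2 := by
  unfold x1
  rw [ddsin, dsin]
  have := Real.sin_sq_add_cos_sq r
  simp only
  nlinarith

lemma y1_sin (r : ℝ) : y1 Real.sin r = 3 / 4 * Real.sin r ^ 2 := by
  unfold y1
  rw [ddsin, dsin]
  simp only
  have h : 1 - Real.cos r ^ 2 = Real.sin r ^ 2 := by
    have := Real.sin_sq_add_cos_sq r
    linarith
  rw [h]
  by_cases h0 : Real.sin r = 0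
  · rw [h0]; simp
  · field_simp
    ring

lemma scal_sin {r : ℝ} (hr : r ∈ Ioo 0 Real.pi) : scal Real.sin r = 6 := by
  have h := isSphere_sin.pos r hr
  have h1 := scal_mul h.ne'
  rw [x1_sin] at h1
  have h2 : 0 < Real.sin r ^ 2 := by positivity
  have h3 : (scal Real.sin r - 6) * Real.sin r ^ 2 = 0 := by linarith
  rcases mul_eq_zero.1 h3 with h4 | h4
  · linarith
  · exact absurd h4 h2.ne'

lemma int_sin_sq : ∫ r in (0 : ℝ)..Real.pi, Real.sin r ^ 2 = Real.pi / 2 := by
  rw [integral_sin_sq]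
  simp

lemma total1_sin : total (sigma1 Real.sin) Real.sin Real.pi = 3 * Real.pi ^ 2 := by
  rw [isSphere_sin.total1]
  simp only [x1_sin]
  rw [intervalIntegral.integral_const_mul, int_sin_sq]
  ring

lemma total2_sin : total (sigma2 Real.sin) Real.sin Real.pi = 3 * Real.pi ^ 2 / 2 := by
  rw [isSphere_sin.total2]
  simp only [y1_sin]
  rw [intervalIntegral.integral_const_mul, int_sin_sq]
  ring

lemma total0_sin : total (fun _ => 1) Real.sin Real.pi = 2 * Real.pi ^ 2 := by
  rw [total0, int_sin_sq]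
  ring

end Pool.Agent.R259.RS
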